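import Pool.Agent.helper91.RB.Spec1

/-!
# Row rb:MEL (MP_24e2e7_nt): the Mellin transform of one exponential
-/

set_option autoImplicit false

namespace Pool.Agent.RB

open NumberField NumberField.InfinitePlace NumberField.Units NumberField.Units.dirichletUnitTheorem
open MeasureTheory Filter Topology Module
open scoped nonZeroDivisors Real Classical

/-! ### the substitution `y = exp η` -/

theorem MEL_exp_map : (volume.restrict (Set.Ioi (0 : ℝ)) : Measure ℝ) =
    Measure.map Real.exp ((volume : Measure ℝ).withDensity fun x =>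
      ENNReal.ofReal (Real.exp x)) := by
  have h := map_withDensity_abs_det_fderiv_eq_addHaar (μ := (volume : Measure ℝ))
    (s := Set.univ) (f := Real.exp)
    (f' := fun x => ContinuousLinearMap.toSpanSingleton ℝ (Real.exp x))
    MeasurableSet.univ.nullMeasurableSet
    (fun x _ => (Real.hasDerivAt_exp x).hasFDerivAt.hasFDerivWithinAt)
    Real.exp_injective.injOn
  rw [Set.image_univ, Real.range_exp, Measure.restrict_univ] at h
  rw [← h]
  congr 2
  funext x
  rw [ContinuousLinearMap.det_toSpanSingleton, abs_of_pos (Real.exp_pos x)]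

theorem MEL_dens_meas {Z : Type*} [MeasurableSpace Z] :
    Measurable fun p : ℝ × Z => ENNReal.ofReal (Real.exp p.1) :=
  (Real.measurable_exp.comp measurable_fst).ennreal_ofReal

theorem MEL_subst {Z : Type*} [MeasurableSpace Z] (μ : Measure Z) [SFinite μ] (F : ℝ × Z → ℂ) :
    (Integrable F ((volume.restrict (Set.Ioi (0 : ℝ))).prod μ) ↔
      Integrable (fun p : ℝ × Z => Real.exp p.1 • F (Real.exp p.1, p.2))
        ((volume : Measure ℝ).prod μ)) ∧
    ∫ p, F p ∂((volume.restrict (Set.Ioi (0 : ℝ))).prod μ) =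
      ∫ p : ℝ × Z, Real.exp p.1 • F (Real.exp p.1, p.2) ∂((volume : Measure ℝ).prod μ) := by
  have hmap : (volume.restrict (Set.Ioi (0 : ℝ))).prod μ =
      Measure.map (Prod.map Real.exp id) (((volume : Measure ℝ).prod μ).withDensity
        fun p => ENNReal.ofReal (Real.exp p.1)) := by
    have h1 : ((volume : Measure ℝ).prod μ).withDensity
        (fun p : ℝ × Z => ENNReal.ofReal (Real.exp p.1)) =
        ((volume : Measure ℝ).withDensity fun x => ENNReal.ofReal (Real.exp x)).prod μ :=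
      (prod_withDensity_left (μ := (volume : Measure ℝ)) (ν := μ)
        (f := fun x => ENNReal.ofReal (Real.exp x)) Real.measurable_exp.ennreal_ofReal).symm
    rw [h1, ← Measure.map_prod_map _ _ Real.measurable_exp measurable_id, ← MEL_exp_map,
      Measure.map_id]
  have hemb : MeasurableEmbedding (Prod.map Real.exp (id : Z → Z)) :=
    Real.isOpenEmbedding_exp.measurableEmbedding.prodMap MeasurableEmbedding.id
  have hfin : ∀ᵐ p : ℝ × Z ∂((volume : Measure ℝ).prod μ),
      ENNReal.ofReal (Real.exp p.1) < ⊤ := Eventually.of_forall fun p => ENNReal.ofReal_lt_top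
  have hreal : ∀ p : ℝ × Z, (ENNReal.ofReal (Real.exp p.1)).toReal = Real.exp p.1 :=
    fun p => ENNReal.toReal_ofReal (Real.exp_pos _).le
  rw [hmap, hemb.integrable_map_iff, hemb.integral_map,
    integrable_withDensity_iff_integrable_smul' MEL_dens_meas hfin,
    integral_withDensity_eq_integral_toReal_smul MEL_dens_meas hfin]
  simp only [hreal]
  exact ⟨Iff.rfl, rfl⟩

theorem MEL_subst1 (f : ℝ → ℂ) :
    (IntegrableOn f (Set.Ioi 0) ↔ Integrable (fun x : ℝ => Real.exp x • f (Real.exp x))) ∧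
    ∫ y in Set.Ioi (0 : ℝ), f y = ∫ x : ℝ, Real.exp x • f (Real.exp x) := by
  have hemb : MeasurableEmbedding Real.exp := Real.isOpenEmbedding_exp.measurableEmbedding
  have hfin : ∀ᵐ x : ℝ, ENNReal.ofReal (Real.exp x) < ⊤ :=
    Eventually.of_forall fun p => ENNReal.ofReal_lt_top
  have hreal : ∀ x : ℝ, (ENNReal.ofReal (Real.exp x)).toReal = Real.exp x :=
    fun p => ENNReal.toReal_ofReal (Real.exp_pos _).le
  rw [IntegrableOn, MEL_exp_map, hemb.integrable_map_iff, hemb.integral_map,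
    integrable_withDensity_iff_integrable_smul' Real.measurable_exp.ennreal_ofReal hfin,
    integral_withDensity_eq_integral_toReal_smul Real.measurable_exp.ennreal_ofReal hfin]
  simp only [hreal]
  exact ⟨Iff.rfl, trivial⟩

/-! ### powers -/

theorem MEL_cpow {x : ℝ} (hx : 0 < x) (w : ℂ) :
    (x : ℂ) ^ w = Complex.exp ((Real.log x : ℝ) * w) := by
  rw [Complex.cpow_def_of_ne_zero (Complex.ofReal_ne_zero.2 hx.ne'), Complex.ofReal_log hx.le]

/-- one factor -/
noncomputable def MEL_g (m a : ℝ) (s : ℂ) (l : ℝ) : ℂ :=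
  ((Real.exp (-π * (m * Real.exp l * a ^ 2)) : ℝ) : ℂ) * Complex.exp ((l : ℂ) * (m * s / 2))

theorem MEL_one (m a : ℝ) (hm : 0 < m) (ha : 0 < a) (s : ℂ) (hs : 0 < s.re) :
    Integrable (MEL_g m a s) ∧ ∫ l : ℝ, MEL_g m a s l =
      (1 / ((π * m * a ^ 2 : ℝ) : ℂ)) ^ ((m : ℂ) * s / 2) * Complex.Gamma ((m : ℂ) * s / 2) := by
  have hr : 0 < π * m * a ^ 2 := by positivity
  have hw : 0 < ((m : ℂ) * s / 2).re := by
    have : ((m : ℂ) * s / 2).re = m * s.re / 2 := by
      rw [show (m : ℂ) * s / 2 = ((m / 2 : ℝ) : ℂ) * s by push_cast; ring, Complex.re_ofReal_mul]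
      ring
    rw [this]
    positivity
  have h1 := Complex.integral_cpow_mul_exp_neg_mul_Ioi hw hr
  have hne : (1 / ((π * m * a ^ 2 : ℝ) : ℂ)) ^ ((m : ℂ) * s / 2) *
      Complex.Gamma ((m : ℂ) * s / 2) ≠ 0 := by
    refine mul_ne_zero ?_ (Complex.Gamma_ne_zero_of_re_pos hw)
    have h2 : (1 / ((π * m * a ^ 2 : ℝ) : ℂ)) = ((1 / (π * m * a ^ 2) : ℝ) : ℂ) := by
      push_cast
      rfl
    rw [h2, MEL_cpow (by positivity)]
    exact Complex.exp_ne_zero _
  have hint : IntegrableOn (fun t : ℝ => (t : ℂ) ^ ((m : ℂ) * s / 2 - 1) *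
      Complex.exp (-(((π * m * a ^ 2 : ℝ) : ℂ) * t))) (Set.Ioi 0) := by
    apply Integrable.of_integral_ne_zero
    rw [h1]
    exact hne
  obtain ⟨h3, h4⟩ := MEL_subst1 (fun t : ℝ => (t : ℂ) ^ ((m : ℂ) * s / 2 - 1) *
      Complex.exp (-(((π * m * a ^ 2 : ℝ) : ℂ) * t)))
  have hg : (fun x : ℝ => Real.exp x • (((Real.exp x : ℝ) : ℂ) ^ ((m : ℂ) * s / 2 - 1) *
      Complex.exp (-(((π * m * a ^ 2 : ℝ) : ℂ) * ((Real.exp x : ℝ) : ℂ))))) = MEL_g m a s := by
    funext x
    rw [MEL_cpow (Real.exp_pos x), Real.log_exp, MEL_g, Complex.real_smul, Complex.ofReal_exp,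
      Complex.ofReal_exp, ← Complex.exp_add, ← Complex.exp_add, ← Complex.exp_add]
    congr 1
    push_cast
    ring
  rw [hg] at h3 h4
  exact ⟨h3.1 hint, by rw [← h4, h1]⟩

/-! ### the change of variables -/

section

variable (K : Type) [Field K] [NumberField K]

/-- the linear map `(η, z) ↦ (η + log (tau z v))_v` -/
noncomputable def MEL_lin : ℝ × logSpace K →ₗ[ℝ] (InfinitePlace K → ℝ) where
  toFun p v := p.1 + if h : v = w₀ then -(2 / (v.mult : ℝ)) * ∑ u, p.2 u
    else 2 / (v.mult : ℝ) * p.2 ⟨v, h⟩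
  map_add' p q := by
    funext v
    simp only [Prod.fst_add, Prod.snd_add, Pi.add_apply]
    split_ifs
    · rw [Finset.sum_add_distrib]
      ring
    · ring
  map_smul' c p := by
    funext v
    simp only [Prod.smul_fst, Prod.smul_snd, Pi.smul_apply, smul_eq_mul, RingHom.id_apply]
    split_ifs
    · rw [← Finset.mul_sum]
      ring
    · ring

theorem MEL_lin_apply (p : ℝ × logSpace K) (v : InfinitePlace K) :
    MEL_lin K p v = p.1 + if h : v = w₀ then -(2 / (v.mult : ℝ)) * ∑ u, p.2 u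
      else 2 / (v.mult : ℝ) * p.2 ⟨v, h⟩ := rfl

theorem MEL_exp_lin (p : ℝ × logSpace K) (v : InfinitePlace K) :
    Real.exp (MEL_lin K p v) = Real.exp p.1 * tau K p.2 v := by
  rw [MEL_lin_apply, Real.exp_add, tau]
  split_ifs <;> rfl

omit [NumberField K] in
theorem MEL_mult_ne (v : InfinitePlace K) : (v.mult : ℝ) ≠ 0 := by
  have := one_le_mult (w := v)
  linarith

theorem MEL_sum (p : ℝ × logSpace K) :
    ∑ v : InfinitePlace K, (v.mult : ℝ) * MEL_lin K p v = (finrank ℚ K : ℝ) * p.1 := by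
  have h0 : ∑ v : InfinitePlace K, (v.mult : ℝ) = (finrank ℚ K : ℝ) := by
    exact_mod_cast congrArg (Nat.cast (R := ℝ)) (sum_mult_eq (K := K))
  have h1 : ∀ v : InfinitePlace K, (v.mult : ℝ) * MEL_lin K p v = (v.mult : ℝ) * p.1 +
      (if h : v = w₀ then -2 * ∑ u, p.2 u else 2 * p.2 ⟨v, h⟩) := by
    intro v
    rw [MEL_lin_apply, mul_add]
    congr 1
    have hv := MEL_mult_ne K v
    split_ifs
    · field_simp
    · field_simp
  rw [Finset.sum_congr rfl fun v _ => h1 v, Finset.sum_add_distrib, ← Finset.sum_mul, h0]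
  have h2 : ∑ v : InfinitePlace K,
      (if h : v = w₀ then -2 * ∑ u, p.2 u else 2 * p.2 ⟨v, h⟩) = 0 := by
    rw [Fintype.sum_eq_add_sum_subtype_ne _ (w₀ : InfinitePlace K), dif_pos rfl]
    have h3 : ∀ v : {v : InfinitePlace K // v ≠ w₀},
        (if h : v.1 = w₀ then -2 * ∑ u, p.2 u else 2 * p.2 ⟨v.1, h⟩) = 2 * p.2 v := by
      intro v
      rw [dif_neg v.2]
    rw [Finset.sum_congr rfl fun v _ => h3 v, ← Finset.mul_sum]
    ring
  rw [h2, add_zero]

theorem MEL_lin_inj : Function.Injective (MEL_lin K) := by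
  rw [injective_iff_map_eq_zero]
  intro p hp
  have h1 := MEL_sum K p
  rw [hp] at h1
  simp only [Pi.zero_apply, mul_zero, Finset.sum_const_zero] at h1
  have hN : (finrank ℚ K : ℝ) ≠ 0 := by exact_mod_cast finrank_pos.ne'
  have h2 : p.1 = 0 := (mul_eq_zero.1 h1.symm).resolve_left hN
  refine Prod.ext h2 ?_
  funext v
  have h3 := congrFun hp v.1
  rw [MEL_lin_apply, dif_neg v.2, h2, zero_add, Pi.zero_apply] at h3
  have hv := MEL_mult_ne K v.1
  rcases mul_eq_zero.1 h3 with h4 | h4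
  · exact absurd h4 (div_ne_zero two_ne_zero hv)
  · exact h4

theorem MEL_finrank : finrank ℝ (ℝ × logSpace K) = finrank ℝ (InfinitePlace K → ℝ) := by
  rw [Module.finrank_prod, Module.finrank_self, Module.finrank_fintype_fun_eq_card,
    Module.finrank_fintype_fun_eq_card]
  have h1 : Fintype.card {w : InfinitePlace K // w ≠ w₀} = Fintype.card (InfinitePlace K) - 1 := by
    rw [Fintype.card_subtype_compl, Fintype.card_subtype_eq]
  have h2 : 0 < Fintype.card (InfinitePlace K) := Fintype.card_pos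
  rw [h1]
  omega

/-- the linear equivalence -/
noncomputable def MEL_eq : (ℝ × logSpace K) ≃L[ℝ] (InfinitePlace K → ℝ) :=
  (LinearEquiv.ofInjectiveOfFinrankEq (MEL_lin K) (MEL_lin_inj K)
    (MEL_finrank K)).toContinuousLinearEquiv

theorem MEL_eq_apply (p : ℝ × logSpace K) : MEL_eq K p = MEL_lin K p := rfl

theorem MEL_measure : ∃ κ : NNReal, 0 < κ ∧
    Measure.map (MEL_eq K) ((volume : Measure ℝ).prod (volume : Measure (logSpace K))) =
      κ • (volume : Measure (InfinitePlace K → ℝ)) := by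
  have h1 : (Measure.map (MEL_eq K)
      ((volume : Measure ℝ).prod (volume : Measure (logSpace K)))).IsAddHaarMeasure :=
    ContinuousLinearEquiv.isAddHaarMeasure_map (MEL_eq K) _
  exact ⟨_, Measure.addHaarScalarFactor_pos_of_isAddHaarMeasure _ _,
    Measure.isAddLeftInvariant_eq_smul _ _⟩

theorem MEL_integrand (a : InfinitePlace K → ℝ) (s : ℂ) (p : ℝ × logSpace K) :
    Real.exp p.1 • (((Real.exp (-π * ∑ v : InfinitePlace K,
      (v.mult : ℝ) * (Real.exp p.1 * tau K p.2 v) * a v ^ 2) : ℝ) : ℂ) *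
      ((Real.exp p.1 : ℝ) : ℂ) ^ ((finrank ℚ K : ℂ) * s / 2 - 1)) =
    ∏ v : InfinitePlace K, MEL_g (v.mult : ℝ) (a v) s (MEL_eq K p v) := by
  have h1 : ∀ v : InfinitePlace K, MEL_g (v.mult : ℝ) (a v) s (MEL_eq K p v) =
      Complex.exp (((-π * ((v.mult : ℝ) * (Real.exp p.1 * tau K p.2 v) * a v ^ 2) : ℝ) : ℂ) +
        (((v.mult : ℝ) * MEL_lin K p v : ℝ) : ℂ) * (s / 2)) := by
    intro v
    rw [MEL_g, MEL_eq_apply, MEL_exp_lin, Complex.ofReal_exp, ← Complex.exp_add]
    congr 1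
    push_cast
    ring
  rw [Finset.prod_congr rfl fun v _ => h1 v, ← Complex.exp_sum, Finset.sum_add_distrib,
    ← Finset.sum_mul, ← Complex.ofReal_sum, ← Complex.ofReal_sum, MEL_sum, ← Finset.mul_sum,
    MEL_cpow (Real.exp_pos _), Real.log_exp, Complex.real_smul, Complex.ofReal_exp,
    Complex.ofReal_exp, ← Complex.exp_add, ← Complex.exp_add]
  congr 1
  push_cast
  ring

end

theorem MEL_fac1 (a : ℝ) (ha : 0 < a) (s : ℂ) :
    (1 / ((π * 1 * a ^ 2 : ℝ) : ℂ)) ^ (((1 : ℝ) : ℂ) * s / 2) *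
      Complex.Gamma (((1 : ℝ) : ℂ) * s / 2) =
    Complex.Gammaℝ s * ((a ^ 1 : ℝ) : ℂ) ^ (-s) := by
  have h2 : (1 / ((π * 1 * a ^ 2 : ℝ) : ℂ)) = ((1 / (π * 1 * a ^ 2) : ℝ) : ℂ) := by
    push_cast
    rfl
  have h3 : Real.log (1 / (π * 1 * a ^ 2)) = -(Real.log π + 2 * Real.log a) := by
    rw [one_div, Real.log_inv, mul_one, Real.log_mul Real.pi_ne_zero (by positivity),
      Real.log_pow]
    push_cast
    rfl
  rw [h2, MEL_cpow (by positivity), h3, Complex.Gammaℝ_def, MEL_cpow Real.pi_pos, pow_one,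
    MEL_cpow ha]
  rw [show (((1 : ℝ) : ℂ) * s / 2) = s / 2 by push_cast; ring]
  rw [show Complex.exp ((Real.log π : ℝ) * (-s / 2)) * Complex.Gamma (s / 2) *
    Complex.exp ((Real.log a : ℝ) * -s) = (Complex.exp ((Real.log π : ℝ) * (-s / 2)) *
    Complex.exp ((Real.log a : ℝ) * -s)) * Complex.Gamma (s / 2) by ring, ← Complex.exp_add]
  congr 2
  push_cast
  ring

theorem MEL_fac2 (a : ℝ) (ha : 0 < a) (s : ℂ) :
    (1 / ((π * 2 * a ^ 2 : ℝ) : ℂ)) ^ (((2 : ℝ) : ℂ) * s / 2) *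
      Complex.Gamma (((2 : ℝ) : ℂ) * s / 2) =
    Complex.Gammaℂ s / 2 * ((a ^ 2 : ℝ) : ℂ) ^ (-s) := by
  have h2 : (1 / ((π * 2 * a ^ 2 : ℝ) : ℂ)) = ((1 / (π * 2 * a ^ 2) : ℝ) : ℂ) := by
    push_cast
    rfl
  have h3 : Real.log (1 / (π * 2 * a ^ 2)) = -(Real.log (2 * π) + 2 * Real.log a) := by
    rw [one_div, Real.log_inv, mul_comm π 2, Real.log_mul (by positivity) (by positivity),
      Real.log_pow]
    push_cast
    rfl
  have h4 : (2 * (π : ℂ)) = ((2 * π : ℝ) : ℂ) := by push_cast; rfl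
  have h5 : Real.log (a ^ 2) = 2 * Real.log a := by
    rw [Real.log_pow]
    push_cast
    rfl
  rw [h2, MEL_cpow (by positivity), h3, Complex.Gammaℂ_def, h4, MEL_cpow (by positivity),
    MEL_cpow (by positivity), h5]
  rw [show (((2 : ℝ) : ℂ) * s / 2) = s by push_cast; ring]
  rw [show 2 * Complex.exp ((Real.log (2 * π) : ℝ) * -s) * Complex.Gamma s / 2 *
    Complex.exp (((2 * Real.log a : ℝ) : ℂ) * -s) = (Complex.exp ((Real.log (2 * π) : ℝ) * -s) *
    Complex.exp (((2 * Real.log a : ℝ) : ℂ) * -s)) * Complex.Gamma s by ring, ← Complex.exp_add]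
  congr 2
  push_cast
  ring

theorem MEL_prod (K : Type) [Field K] [NumberField K] (a : InfinitePlace K → ℝ)
    (ha : ∀ v, 0 < a v) (s : ℂ) (hs : 0 < s.re) :
    ∏ v : InfinitePlace K, ∫ l : ℝ, MEL_g (v.mult : ℝ) (a v) s l =
      Ga K s / 2 ^ nrComplexPlaces K *
        ((∏ v : InfinitePlace K, a v ^ v.mult : ℝ) : ℂ) ^ (-s) := by
  have h1 : ∀ v : InfinitePlace K, ∫ l : ℝ, MEL_g (v.mult : ℝ) (a v) s l =
      (if v.IsReal then Complex.Gammaℝ s else Complex.Gammaℂ s / 2) *
        ((a v ^ v.mult : ℝ) : ℂ) ^ (-s) := by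
    intro v
    rw [(MEL_one (v.mult : ℝ) (a v) (by have := one_le_mult (w := v); linarith) (ha v) s hs).2]
    by_cases hv : v.IsReal
    · rw [if_pos hv]
      have h2 : v.mult = 1 := mult_isReal ⟨v, hv⟩
      rw [h2, Nat.cast_one]
      exact MEL_fac1 (a v) (ha v) s
    · rw [if_neg hv]
      have h2 : v.mult = 2 := mult_isComplex ⟨v, not_isReal_iff_isComplex.1 hv⟩
      rw [h2, Nat.cast_ofNat]
      exact MEL_fac2 (a v) (ha v) s
  rw [Finset.prod_congr rfl fun v _ => h1 v, Finset.prod_mul_distrib]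
  congr 1
  · rw [prod_eq_prod_mul_prod]
    have h2 : ∀ v : {v : InfinitePlace K // v.IsReal},
        (if v.1.IsReal then Complex.Gammaℝ s else Complex.Gammaℂ s / 2) = Complex.Gammaℝ s :=
      fun v => if_pos v.2
    have h3 : ∀ v : {v : InfinitePlace K // v.IsComplex},
        (if v.1.IsReal then Complex.Gammaℝ s else Complex.Gammaℂ s / 2) =
          Complex.Gammaℂ s / 2 :=
      fun v => if_neg (not_isReal_iff_isComplex.2 v.2)
    rw [Finset.prod_congr rfl fun v _ => h2 v, Finset.prod_congr rfl fun v _ => h3 v,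
      Finset.prod_const, Finset.prod_const, Finset.card_univ, Finset.card_univ, Ga,
      div_pow, ← mul_div_assoc]
  · have h2 : ∀ v : InfinitePlace K, 0 < a v ^ v.mult := fun v => pow_pos (ha v) _
    rw [MEL_cpow (Finset.prod_pos fun v _ => h2 v), Real.log_prod fun v _ => (h2 v).ne',
      Complex.ofReal_sum, Finset.sum_mul, Complex.exp_sum]
    exact Finset.prod_congr rfl fun v _ => MEL_cpow (h2 v) _

theorem MEL : MEL_stmt := by
  intro K _ _
  obtain ⟨κ, hκ, hκm⟩ := MEL_measure K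
  refine ⟨(κ : ℝ) / 2 ^ nrComplexPlaces K, by positivity, ?_⟩
  intro a ha s hs
  let F : ℝ × logSpace K → ℂ := fun p => ((Real.exp (-π * ∑ v : InfinitePlace K,
      (v.mult : ℝ) * (p.1 * tau K p.2 v) * a v ^ 2) : ℝ) : ℂ) *
      (p.1 : ℂ) ^ ((finrank ℚ K : ℂ) * s / 2 - 1)
  let G : (InfinitePlace K → ℝ) → ℂ := fun l =>
    ∏ v : InfinitePlace K, MEL_g (v.mult : ℝ) (a v) s (l v)
  have hG : Integrable G := by
    refine Integrable.fintype_prod (f := fun (v : InfinitePlace K) (l : ℝ) =>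
      MEL_g (v.mult : ℝ) (a v) s l) fun v => ?_
    exact (MEL_one (v.mult : ℝ) (a v) (by have := one_le_mult (w := v); linarith) (ha v) s hs).1
  have hGint : ∫ l, G l = ∏ v : InfinitePlace K, ∫ l : ℝ, MEL_g (v.mult : ℝ) (a v) s l :=
    integral_fintype_prod_volume_eq_prod (fun (v : InfinitePlace K) (l : ℝ) =>
      MEL_g (v.mult : ℝ) (a v) s l)
  have hemb : MeasurableEmbedding (MEL_eq K) :=
    (MEL_eq K).toHomeomorph.measurableEmbedding
  obtain ⟨h1, h2⟩ := MEL_subst (volume : Measure (logSpace K)) F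
  have h3 : (fun p : ℝ × logSpace K => Real.exp p.1 • F (Real.exp p.1, p.2)) =
      fun p => G (MEL_eq K p) := by
    funext p
    exact MEL_integrand K a s p
  have h4 : Integrable (fun p => G (MEL_eq K p))
      ((volume : Measure ℝ).prod (volume : Measure (logSpace K))) := by
    have h5 : Integrable G (Measure.map (MEL_eq K)
        ((volume : Measure ℝ).prod (volume : Measure (logSpace K)))) := by
      rw [hκm]
      exact hG.smul_measure_nnreal
    exact hemb.integrable_map_iff.1 h5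
  rw [h3] at h1 h2
  have hF : Integrable F ((volume.restrict (Set.Ioi 0)).prod (volume : Measure (logSpace K))) :=
    h1.2 h4
  refine ⟨hF, ?_⟩
  have h5 : ∫ y in Set.Ioi (0 : ℝ), (∫ z : logSpace K, ((Real.exp (-π * ∑ v : InfinitePlace K,
      (v.mult : ℝ) * (y * tau K z v) * a v ^ 2) : ℝ) : ℂ)) *
        (y : ℂ) ^ ((finrank ℚ K : ℂ) * s / 2 - 1) =
      ∫ p, F p ∂((volume.restrict (Set.Ioi 0)).prod (volume : Measure (logSpace K))) := by
    rw [integral_prod _ hF]
    refine integral_congr_ae (Eventually.of_forall fun y => ?_)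
    show (∫ z : logSpace K, ((Real.exp (-π * ∑ v : InfinitePlace K,
      (v.mult : ℝ) * (y * tau K z v) * a v ^ 2) : ℝ) : ℂ)) *
        (y : ℂ) ^ ((finrank ℚ K : ℂ) * s / 2 - 1) = ∫ z : logSpace K,
        ((Real.exp (-π * ∑ v : InfinitePlace K,
          (v.mult : ℝ) * (y * tau K z v) * a v ^ 2) : ℝ) : ℂ) *
          (y : ℂ) ^ ((finrank ℚ K : ℂ) * s / 2 - 1)
    rw [integral_mul_const]
  rw [h5, h2, ← hemb.integral_map, hκm, integral_smul_nnreal_measure, hGint, MEL_prod K a ha s hs]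
  rw [NNReal.smul_def, Complex.real_smul]
  push_cast
  ring

end Pool.Agent.RB
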